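import Mathlib
import Pool.Agent.Helper55.JS.Walks

/-!
# Project JS, piece 6: the mass of the non-spread pairs
-/

set_option autoImplicit false

namespace Pool.Agent.Helper55.JS

open Finset

variable {V : Type} [Fintype V] [DecidableEq V] {G : SimpleGraph V}

namespace P6

/-- pairs of positions -/
def prs (k : ℕ) : Finset (Fin (k + 1) × Fin (k + 1)) := univ.filter fun q => q.1 < q.2

lemma card_prs_le (k : ℕ) : ((prs k).card : ℝ) ≤ ((k : ℝ) + 1) ^ 2 := by
  have h : (prs k).card ≤ (k + 1) * (k + 1) := by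
    refine (card_le_univ _).trans ?_
    simp
  calc ((prs k).card : ℝ) ≤ (((k + 1) * (k + 1) : ℕ) : ℝ) := by exact_mod_cast h
    _ = ((k : ℝ) + 1) ^ 2 := by push_cast; ring

lemma bw_le (k : ℕ) (x y : V) :
    bw G k x y ≤ ∑ q ∈ prs k, ∑ u, W G q.1 x u * W G (q.2 - q.1) u u * W G (k - q.2) u y := by
  classical
  have h1 : (wk G k x y).filter (fun p => ¬ Function.Injective p) ⊆
      (prs k).biUnion fun q => (univ : Finset V).biUnion fun u =>
        (wk G k x y).filter fun p => p q.1 = u ∧ p q.2 = u := by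
    intro p hp
    rw [mem_filter] at hp
    obtain ⟨hp1, hp2⟩ := hp
    simp only [Function.Injective, not_forall] at hp2
    obtain ⟨a, b, hab, hne⟩ := hp2
    rw [mem_biUnion]
    rcases lt_or_gt_of_ne hne with h | h
    · refine ⟨(a, b), ?_, ?_⟩
      · unfold prs
        rw [mem_filter]
        exact ⟨mem_univ _, h⟩
      · rw [mem_biUnion]
        refine ⟨p a, mem_univ _, ?_⟩
        rw [mem_filter]
        exact ⟨hp1, rfl, hab.symm⟩
    · refine ⟨(b, a), ?_, ?_⟩
      · unfold prs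
        rw [mem_filter]
        exact ⟨mem_univ _, h⟩
      · rw [mem_biUnion]
        refine ⟨p b, mem_univ _, ?_⟩
        rw [mem_filter]
        exact ⟨hp1, rfl, hab⟩
  have h2 : (((wk G k x y).filter fun p => ¬ Function.Injective p).card : ℝ) ≤
      ∑ q ∈ prs k, ∑ u : V, (((wk G k x y).filter fun p => p q.1 = u ∧ p q.2 = u).card : ℝ) := by
    have h3 := (card_le_card h1).trans (card_biUnion_le.trans
      (sum_le_sum fun q _ => card_biUnion_le))
    exact_mod_cast h3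
  unfold bw
  refine le_trans (le_of_eq ?_) (h2.trans ?_)
  · congr!
  · refine sum_le_sum fun q hq => sum_le_sum fun u _ => ?_
    unfold prs at hq
    rw [mem_filter] at hq
    have hlt : (q.1 : ℕ) < q.2 := hq.2
    have hb : (q.2 : ℕ) ≤ k := by have := q.2.isLt; omega
    have h4 := card_wk_two (G := G) hlt.le hb x y u u
    refine le_trans (le_of_eq ?_) h4
    congr!

/-- the pointwise bound -/
lemma pointwise {k : ℕ} {δ : ℝ} (hδ : 0 < δ) (x y : V) (h : ¬ Spread G k δ x y) :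
    W G k x y ^ 2 ≤ ∑ r ∈ Ico 1 k, ∑ u, (δ ^ 2)⁻¹ * (W G r x u ^ 2 * W G (k - r) u y ^ 2) +
      ∑ q ∈ prs k, ∑ u, 2 * (W G q.1 x u * W G (q.2 - q.1) u u * W G (k - q.2) u y *
        W G k x y) := by
  have hA : ∀ r ∈ Ico 1 k, ∀ u : V, 0 ≤ (δ ^ 2)⁻¹ * (W G r x u ^ 2 * W G (k - r) u y ^ 2) := by
    intro r _ u
    positivity
  have hB : ∀ q ∈ prs k, ∀ u : V, 0 ≤ 2 * (W G q.1 x u * W G (q.2 - q.1) u u *
      W G (k - q.2) u y * W G k x y) := by
    intro q _ u
    have h1 := W_nonneg (G := G) q.1 x u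
    have h2 := W_nonneg (G := G) (q.2 - q.1) u u
    have h3 := W_nonneg (G := G) (k - q.2) u y
    have h4 := W_nonneg (G := G) k x y
    positivity
  have hA' := sum_nonneg fun r hr => sum_nonneg fun u (_ : u ∈ (univ : Finset V)) => hA r hr u
  have hB' := sum_nonneg fun q hq => sum_nonneg fun u (_ : u ∈ (univ : Finset V)) => hB q hq u
  by_cases h0 : 0 < W G k x y
  swap
  · have : W G k x y = 0 := le_antisymm (not_lt.mp h0) (W_nonneg _ _ _)
    have e : W G k x y ^ 2 = 0 := by rw [this]; norm_num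
    rw [e]
    exact add_nonneg hA' hB'
  by_cases h1 : ∀ (r : ℕ) (u : V), 0 < r → r < k → W G r x u * W G (k - r) u y ≤ δ * W G k x y
  swap
  · push Not at h1
    obtain ⟨r, u, hr, hrk, hlt⟩ := h1
    have h2 : W G k x y ^ 2 ≤ (δ ^ 2)⁻¹ * (W G r x u ^ 2 * W G (k - r) u y ^ 2) := by
      have h3 : (δ * W G k x y) ^ 2 ≤ (W G r x u * W G (k - r) u y) ^ 2 :=
        pow_le_pow_left₀ (by positivity) hlt.le 2
      rw [mul_pow, mul_pow] at h3
      rw [← div_eq_inv_mul, le_div_iff₀ (by positivity)]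
      linarith
    have h4 : (δ ^ 2)⁻¹ * (W G r x u ^ 2 * W G (k - r) u y ^ 2) ≤
        ∑ r ∈ Ico 1 k, ∑ u, (δ ^ 2)⁻¹ * (W G r x u ^ 2 * W G (k - r) u y ^ 2) := by
      have hr' : r ∈ Ico 1 k := by rw [mem_Ico]; omega
      refine le_trans ?_ (single_le_sum
        (f := fun r => ∑ u, (δ ^ 2)⁻¹ * (W G r x u ^ 2 * W G (k - r) u y ^ 2))
        (fun r hr => sum_nonneg fun u _ => hA r hr u) hr')
      exact single_le_sum (f := fun u => (δ ^ 2)⁻¹ * (W G r x u ^ 2 * W G (k - r) u y ^ 2))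
        (fun u _ => hA r hr' u) (mem_univ u)
    linarith
  by_cases h2 : bw G k x y ≤ W G k x y / 2
  · exact absurd ⟨h0, h1, h2⟩ h
  · push Not at h2
    have h3 := bw_le (G := G) k x y
    have h4 : W G k x y ≤ 2 * ∑ q ∈ prs k, ∑ u, W G q.1 x u * W G (q.2 - q.1) u u *
        W G (k - q.2) u y := by linarith
    have h5 : W G k x y ^ 2 ≤ (2 * ∑ q ∈ prs k, ∑ u, W G q.1 x u * W G (q.2 - q.1) u u *
        W G (k - q.2) u y) * W G k x y := by
      rw [sq]
      exact mul_le_mul_of_nonneg_right h4 h0.le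
    have h6 : (2 * ∑ q ∈ prs k, ∑ u, W G q.1 x u * W G (q.2 - q.1) u u *
        W G (k - q.2) u y) * W G k x y = ∑ q ∈ prs k, ∑ u, 2 * (W G q.1 x u *
          W G (q.2 - q.1) u u * W G (k - q.2) u y * W G k x y) := by
      rw [mul_sum, sum_mul]
      refine sum_congr rfl fun q _ => ?_
      rw [mul_sum, sum_mul]
      refine sum_congr rfl fun u _ => ?_
      ring
    linarith

/-- a walk of length `a + k + c` from `u` to `u` -/
lemma cyc (a k c : ℕ) (u : V) :
    ∑ x, ∑ y, W G a x u * (W G c u y * W G k x y) = W G (a + k + c) u u := by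
  rw [W_add, sum_comm]
  refine sum_congr rfl fun y _ => ?_
  rw [W_add, sum_mul]
  refine sum_congr rfl fun x _ => ?_
  rw [W_symm a x u, W_symm c u y]
  ring

end P6

open Classical in
/-- JS-6 -/
theorem nonspread_mass {k : ℕ} (hk : 1 ≤ k) {δ N' : ℝ} (hδ : 0 < δ)
    (hcl : ∀ m, 1 ≤ m → m < 2 * k → ∑ v, W G m v v * W G (2 * k - m) v v ≤ N') :
    ∑ x, ∑ y, (if Spread G k δ x y then 0 else W G k x y ^ 2) ≤
      ((k : ℝ) / δ ^ 2 + 2 * ((k : ℝ) + 1) ^ 2) * N' := by
  have hN' : 0 ≤ N' := by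
    refine le_trans ?_ (hcl 1 le_rfl (by omega))
    exact sum_nonneg fun v _ => mul_nonneg (W_nonneg _ _ _) (W_nonneg _ _ _)
  have h1 : ∀ x y : V, (if Spread G k δ x y then 0 else W G k x y ^ 2) ≤
      ∑ r ∈ Ico 1 k, ∑ u, (δ ^ 2)⁻¹ * (W G r x u ^ 2 * W G (k - r) u y ^ 2) +
      ∑ q ∈ P6.prs k, ∑ u, 2 * (W G q.1 x u * W G (q.2 - q.1) u u * W G (k - q.2) u y *
        W G k x y) := by
    intro x y
    split_ifs with h
    · refine add_nonneg (sum_nonneg fun r _ => sum_nonneg fun u _ => by positivity)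
        (sum_nonneg fun q _ => sum_nonneg fun u _ => ?_)
      have h1 := W_nonneg (G := G) q.1 x u
      have h2 := W_nonneg (G := G) (q.2 - q.1) u u
      have h3 := W_nonneg (G := G) (k - q.2) u y
      have h4 := W_nonneg (G := G) k x y
      positivity
    · exact P6.pointwise hδ x y h
  refine (sum_le_sum fun x _ => sum_le_sum fun y _ => h1 x y).trans ?_
  simp only [sum_add_distrib]
  have hA : ∑ x : V, ∑ y : V, ∑ r ∈ Ico 1 k, ∑ u, (δ ^ 2)⁻¹ *
      (W G r x u ^ 2 * W G (k - r) u y ^ 2) ≤ (k : ℝ) / δ ^ 2 * N' := by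
    have e : ∑ x : V, ∑ y : V, ∑ r ∈ Ico 1 k, ∑ u, (δ ^ 2)⁻¹ *
        (W G r x u ^ 2 * W G (k - r) u y ^ 2) =
        ∑ r ∈ Ico 1 k, (δ ^ 2)⁻¹ * ∑ u, W G (2 * r) u u * W G (2 * k - 2 * r) u u := by
      rw [sum_congr rfl fun x _ => sum_comm, sum_comm]
      refine sum_congr rfl fun r hr => ?_
      rw [mem_Ico] at hr
      rw [sum_congr rfl fun x _ => sum_comm, sum_comm, mul_sum]
      refine sum_congr rfl fun u _ => ?_
      rw [show 2 * k - 2 * r = 2 * (k - r) by omega, W_self_eq, W_self_eq, sum_mul_sum, mul_sum]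
      refine sum_congr rfl fun x _ => ?_
      rw [mul_sum]
      refine sum_congr rfl fun y _ => ?_
      rw [W_symm r x u]
    rw [e]
    calc ∑ r ∈ Ico 1 k, (δ ^ 2)⁻¹ * ∑ u, W G (2 * r) u u * W G (2 * k - 2 * r) u u
        ≤ ∑ r ∈ Ico 1 k, (δ ^ 2)⁻¹ * N' := by
          refine sum_le_sum fun r hr => ?_
          rw [mem_Ico] at hr
          exact mul_le_mul_of_nonneg_left (hcl (2 * r) (by omega) (by omega)) (by positivity)
      _ = ((k - 1 : ℕ) : ℝ) * ((δ ^ 2)⁻¹ * N') := by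
          rw [sum_const, Nat.card_Ico, nsmul_eq_mul]
      _ ≤ (k : ℝ) * ((δ ^ 2)⁻¹ * N') := by
          refine mul_le_mul_of_nonneg_right ?_ (by positivity)
          exact_mod_cast Nat.sub_le k 1
      _ = (k : ℝ) / δ ^ 2 * N' := by rw [div_eq_mul_inv]; ring
  have hB : ∑ x : V, ∑ y : V, ∑ q ∈ P6.prs k, ∑ u, 2 * (W G q.1 x u *
      W G (q.2 - q.1) u u * W G (k - q.2) u y * W G k x y) ≤ 2 * ((k : ℝ) + 1) ^ 2 * N' := by
    have e : ∑ x : V, ∑ y : V, ∑ q ∈ P6.prs k, ∑ u, 2 * (W G q.1 x u *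
        W G (q.2 - q.1) u u * W G (k - q.2) u y * W G k x y) =
        ∑ q ∈ P6.prs k, 2 * ∑ u, W G (q.2 - q.1) u u * W G (q.1 + k + (k - q.2)) u u := by
      rw [sum_congr rfl fun x _ => sum_comm, sum_comm]
      refine sum_congr rfl fun q _ => ?_
      rw [sum_congr rfl fun x _ => sum_comm, sum_comm, mul_sum]
      refine sum_congr rfl fun u _ => ?_
      rw [← P6.cyc, mul_sum, mul_sum]
      refine sum_congr rfl fun x _ => ?_
      rw [mul_sum, mul_sum]
      refine sum_congr rfl fun y _ => ?_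
      ring
    rw [e]
    calc ∑ q ∈ P6.prs k, 2 * ∑ u, W G (q.2 - q.1) u u * W G (q.1 + k + (k - q.2)) u u
        ≤ ∑ q ∈ P6.prs k, 2 * N' := by
          refine sum_le_sum fun q hq => ?_
          unfold P6.prs at hq
          rw [mem_filter] at hq
          have hlt : (q.1 : ℕ) < q.2 := hq.2
          have hb : (q.2 : ℕ) ≤ k := by have := q.2.isLt; omega
          have e2 : (q.1 : ℕ) + k + (k - q.2) = 2 * k - (q.2 - q.1) := by omega
          rw [e2]
          exact mul_le_mul_of_nonneg_left (hcl _ (by omega) (by omega)) (by norm_num)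
      _ = ((P6.prs k).card : ℝ) * (2 * N') := by rw [sum_const, nsmul_eq_mul]
      _ ≤ ((k : ℝ) + 1) ^ 2 * (2 * N') :=
          mul_le_mul_of_nonneg_right (P6.card_prs_le k) (by positivity)
      _ = 2 * ((k : ℝ) + 1) ^ 2 * N' := by ring
  linarith

end Pool.Agent.Helper55.JS
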